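import Pool.Agent.helper73.TC.HDefs

/-!
# Bridge between concrete singular chains and Mathlib's singular homology
-/

set_option autoImplicit false
open CategoryTheory AlgebraicTopology Topology Limits

noncomputable section
namespace Pool.Agent.helper73.TC

namespace BR

variable (F : Type) [Field F]

/-- Mathlib's singular chain complex -/
abbrev CC (X : TopCat.{0}) : ChainComplex (ModuleCat.{0} F) ℕ :=
  ((singularChainComplexFunctor (ModuleCat.{0} F)).obj (ModuleCat.of F F)).obj X

/-- the singular simplicial set -/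
abbrev SS (X : TopCat.{0}) : SSet.{0} := TopCat.toSSet.obj X

/-- a singular simplex as a simplex of the singular simplicial set -/
def sx (X : TopCat.{0}) (n : ℕ) :
    Sing X n ≃ (SS X).obj (Opposite.op (SimplexCategory.mk n)) :=
  (X.toSSetObjEquiv (Opposite.op (SimplexCategory.mk n))).symm

/-- the inclusion of the summand of a simplex -/
def io (X : TopCat.{0}) (n : ℕ) (x : (SS X).obj (Opposite.op (SimplexCategory.mk n))) :
    ModuleCat.of F F ⟶ (CC F X).X n :=
  (SS X).ιChainComplex (R := ModuleCat.of F F) x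

/-- from concrete chains to Mathlib's chains -/
def toC (X : TopCat.{0}) (n : ℕ) : SC F X n →ₗ[F] (CC F X).X n :=
  Finsupp.lsum F fun σ : Sing X n => (io F X n (sx X n σ)).hom

/-- from Mathlib's chains to concrete chains, as a morphism -/
def fromC' (X : TopCat.{0}) (n : ℕ) : (CC F X).X n ⟶ ModuleCat.of F (SC F X n) :=
  Limits.Sigma.desc fun x => ModuleCat.ofHom (Finsupp.lsingle ((sx X n).symm x))

/-- from Mathlib's chains to concrete chains -/
def fromC (X : TopCat.{0}) (n : ℕ) : (CC F X).X n →ₗ[F] SC F X n := (fromC' F X n).hom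

lemma io_fromC' (X : TopCat.{0}) (n : ℕ)
    (x : (SS X).obj (Opposite.op (SimplexCategory.mk n))) :
    io F X n x ≫ fromC' F X n = ModuleCat.ofHom (Finsupp.lsingle ((sx X n).symm x)) :=
  Limits.Sigma.ι_desc _ _

lemma fromC_io (X : TopCat.{0}) (n : ℕ)
    (x : (SS X).obj (Opposite.op (SimplexCategory.mk n))) (a : F) :
    fromC F X n ((io F X n x).hom a) = Finsupp.single ((sx X n).symm x) a := by
  have h := io_fromC' F X n x
  have h2 := congrArg (fun g => g.hom a) h
  exact h2

lemma toC_single (X : TopCat.{0}) (n : ℕ) (σ : Sing X n) (a : F) :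
    toC F X n (Finsupp.single σ a) = (io F X n (sx X n σ)).hom a := by
  unfold toC
  rw [Finsupp.lsum_single]

lemma fromC_toC (X : TopCat.{0}) (n : ℕ) (c : SC F X n) : fromC F X n (toC F X n c) = c := by
  have h : fromC F X n ∘ₗ toC F X n = LinearMap.id := by
    apply Finsupp.lhom_ext
    intro σ a
    rw [LinearMap.comp_apply, toC_single, fromC_io, Equiv.symm_apply_apply, LinearMap.id_apply]
  exact congrArg (fun g => g c) h

lemma toC_fromC (X : TopCat.{0}) (n : ℕ) (c : (CC F X).X n) :
    toC F X n (fromC F X n c) = c := by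
  have h : fromC' F X n ≫ ModuleCat.ofHom (toC F X n) = 𝟙 _ := by
    apply SSet.chainComplex_hom_ext
    intro x
    have h1 : (io F X n x ≫ fromC' F X n) ≫ ModuleCat.ofHom (toC F X n) = io F X n x := by
      rw [io_fromC']
      ext
      show toC F X n (Finsupp.lsingle ((sx X n).symm x) (1 : F)) = (io F X n x).hom 1
      rw [Finsupp.lsingle_apply, toC_single, Equiv.apply_symm_apply]
    exact (Category.assoc _ _ _).symm.trans (h1.trans (Category.comp_id _).symm)
  have h2 := congrArg (fun g => g.hom c) h
  exact h2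

lemma sx_face (X : TopCat.{0}) (n : ℕ) (σ : Sing X (n + 1)) (i : Fin (n + 2)) :
    (SS X).δ i (sx X (n + 1) σ) = sx X n (σ.comp (faceMap n i)) := rfl

lemma sx_map {X Y : TopCat.{0}} (f : X ⟶ Y) (n : ℕ) (σ : Sing X n) :
    (TopCat.toSSet.map f).app _ (sx X n σ) = sx Y n (f.hom.comp σ) := rfl

lemma toC_bd (X : TopCat.{0}) (n : ℕ) (c : SC F X (n + 1)) :
    toC F X n (bd F X n c) = ((CC F X).d (n + 1) n).hom (toC F X (n + 1) c) := by
  have h : toC F X n ∘ₗ bd F X n = ((CC F X).d (n + 1) n).hom ∘ₗ toC F X (n + 1) := by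
    apply Finsupp.lhom_ext
    intro σ a
    rw [LinearMap.comp_apply, LinearMap.comp_apply, toC_single]
    have h1 : io F X (n + 1) (sx X (n + 1) σ) ≫ (CC F X).d (n + 1) n =
        ∑ i : Fin (n + 2), (-1 : ℤ) ^ i.val • io F X n ((SS X).δ i (sx X (n + 1) σ)) :=
      SSet.ιChainComplex_d (X := SS X) (R := ModuleCat.of F F) (sx X (n + 1) σ)
    have h2 : ((CC F X).d (n + 1) n).hom ((io F X (n + 1) (sx X (n + 1) σ)).hom a) =
        (∑ i : Fin (n + 2), (-1 : ℤ) ^ i.val • io F X n ((SS X).δ i (sx X (n + 1) σ))).hom a := by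
      rw [← h1]; rfl
    rw [h2]
    unfold bd
    rw [LinearMap.sum_apply, map_sum, ModuleCat.hom_sum, LinearMap.sum_apply]
    refine Finset.sum_congr rfl fun i _ => ?_
    rw [LinearMap.smul_apply, Finsupp.lmapDomain_apply, Finsupp.mapDomain_single, map_smul,
      toC_single, sx_face]
    rcases Nat.even_or_odd (i : ℕ) with hi | hi
    · rw [hi.neg_one_pow, hi.neg_one_pow, one_smul, one_smul]
    · rw [hi.neg_one_pow, hi.neg_one_pow, neg_one_smul, neg_one_smul]
      rfl
  exact congrArg (fun g => g c) h

lemma fromC_d (X : TopCat.{0}) (n : ℕ) (c : (CC F X).X (n + 1)) :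
    fromC F X n (((CC F X).d (n + 1) n).hom c) = bd F X n (fromC F X (n + 1) c) := by
  have h := toC_bd F X n (fromC F X (n + 1) c)
  rw [toC_fromC] at h
  rw [← h, fromC_toC]

lemma toC_push {X Y : TopCat.{0}} (f : X ⟶ Y) (n : ℕ) (c : SC F X n) :
    toC F Y n (push F f.hom n c) =
      ((((singularChainComplexFunctor (ModuleCat.{0} F)).obj (ModuleCat.of F F)).map f).f n).hom
        (toC F X n c) := by
  have h : toC F Y n ∘ₗ push F f.hom n =
      ((((singularChainComplexFunctor (ModuleCat.{0} F)).obj
        (ModuleCat.of F F)).map f).f n).hom ∘ₗ toC F X n := by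
    apply Finsupp.lhom_ext
    intro σ a
    rw [LinearMap.comp_apply, LinearMap.comp_apply, toC_single]
    have h1 : io F X n (sx X n σ) ≫
        (((singularChainComplexFunctor (ModuleCat.{0} F)).obj (ModuleCat.of F F)).map f).f n =
        io F Y n (sx Y n (f.hom.comp σ)) :=
      SSet.ι_chainComplexMap_f _ _ (TopCat.toSSet.map f) (ModuleCat.of F F) (sx X n σ)
    have h2 : ((((singularChainComplexFunctor (ModuleCat.{0} F)).obj
        (ModuleCat.of F F)).map f).f n).hom ((io F X n (sx X n σ)).hom a) =
        (io F Y n (sx Y n (f.hom.comp σ))).hom a := by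
      rw [← h1]; rfl
    rw [h2]
    unfold push
    rw [Finsupp.lmapDomain_apply, Finsupp.mapDomain_single, toC_single]
  exact congrArg (fun g => g c) h

end BR

section BR
variable (F : Type) [Field F]

open BR

theorem mono_of_HI {X Y : TopCat.{0}} (f : X ⟶ Y) (n : ℕ) (h : HI F f.hom n) :
    Mono (((singularHomologyFunctor (ModuleCat.{0} F) n).obj (ModuleCat.of F F)).map f) := by
  rw [ModuleCat.mono_iff_injective]
  set φ := ((singularChainComplexFunctor (ModuleCat.{0} F)).obj (ModuleCat.of F F)).map f with hφ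
  have hmap : ((singularHomologyFunctor (ModuleCat.{0} F) n).obj (ModuleCat.of F F)).map f =
      HomologicalComplex.homologyMap φ n := rfl
  rw [hmap]
  -- it suffices to have trivial kernel
  suffices hk : ∀ x : (CC F X).homology n, (HomologicalComplex.homologyMap φ n).hom x = 0 → x = 0 by
    have hinj : ∀ x y : (CC F X).homology n, (HomologicalComplex.homologyMap φ n).hom x =
        (HomologicalComplex.homologyMap φ n).hom y → x = y := by
      intro x y hxy
      have h1 : (HomologicalComplex.homologyMap φ n).hom (x - y) = 0 := by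
        rw [map_sub]
        exact sub_eq_zero.mpr hxy
      exact sub_eq_zero.mp (hk _ h1)
    intro x y hxy
    exact hinj x y hxy
  intro x hx
  -- exactness of toCycles → homologyπ
  have hex : ∀ (K : ChainComplex (ModuleCat.{0} F) ℕ) (w : K.cycles n),
      (K.homologyπ n).hom w = 0 → ∃ y : K.X (n + 1), (K.toCycles (n + 1) n).hom y = w := by
    intro K w hw
    have hc := K.homologyIsCokernel (n + 1) n (by simp)
    have he : (ShortComplex.mk (K.toCycles (n + 1) n) (K.homologyπ n)
        (K.toCycles_comp_homologyπ (n + 1) n)).Exact :=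
      ShortComplex.exact_of_g_is_cokernel _ hc
    exact (ShortComplex.moduleCat_exact_iff _).1 he w hw
  obtain ⟨z, hz⟩ := (ModuleCat.epi_iff_surjective ((CC F X).homologyπ n)).1 inferInstance x
  have hz' : ((CC F X).homologyπ n).hom z = x := hz
  have h1 : ((CC F Y).homologyπ n).hom ((HomologicalComplex.cyclesMap φ n).hom z) = 0 := by
    have h2 := HomologicalComplex.homologyπ_naturality φ n
    have h3 := congrArg (fun g => g.hom z) h2
    have h4 : (HomologicalComplex.homologyMap φ n).hom (((CC F X).homologyπ n).hom z) =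
      ((CC F Y).homologyπ n).hom ((HomologicalComplex.cyclesMap φ n).hom z) := h3
    rw [← h4, hz', hx]
  obtain ⟨y, hy⟩ := hex _ _ h1
  set c : (CC F X).X n := ((CC F X).iCycles n).hom z with hc
  have h5 : (φ.f n).hom c = ((CC F Y).d (n + 1) n).hom y := by
    have h6 := HomologicalComplex.cyclesMap_i φ n
    have h7 := congrArg (fun g => g.hom z) h6
    have h8 : ((CC F Y).iCycles n).hom ((HomologicalComplex.cyclesMap φ n).hom z) =
      (φ.f n).hom (((CC F X).iCycles n).hom z) := h7
    rw [hc, ← h8, ← hy]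
    have h9 := (CC F Y).toCycles_i (n + 1) n
    exact congrArg (fun g => g.hom y) h9
  have h10 : push F f.hom n (fromC F X n c) = bd F Y n (fromC F Y (n + 1) y) := by
    rw [← fromC_d, ← h5, ← fromC_toC F Y n (push F f.hom n (fromC F X n c)), toC_push, toC_fromC]
  have h11 : fromC F X n c ∈ cyc F X n := by
    rcases n with _ | n
    · exact Submodule.mem_top
    · show bd F X n (fromC F X (n + 1) c) = 0
      rw [← fromC_d]
      have h12 := (CC F X).iCycles_d (n + 1) n
      have h13 : ((CC F X).d (n + 1) n).hom (((CC F X).iCycles (n + 1)).hom z) = 0 :=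
        congrArg (fun g => g.hom z) h12
      rw [hc, h13, map_zero]
  obtain ⟨e, he⟩ := h _ h11 ⟨_, h10.symm⟩
  have h14 : z = ((CC F X).toCycles (n + 1) n).hom (toC F X (n + 1) e) := by
    have hinj := (ModuleCat.mono_iff_injective ((CC F X).iCycles n)).1 inferInstance
    apply hinj
    have h15 : ((CC F X).iCycles n).hom (((CC F X).toCycles (n + 1) n).hom (toC F X (n + 1) e)) =
        ((CC F X).d (n + 1) n).hom (toC F X (n + 1) e) :=
      congrArg (fun g => g.hom (toC F X (n + 1) e)) ((CC F X).toCycles_i (n + 1) n)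
    show ((CC F X).iCycles n).hom z = ((CC F X).iCycles n).hom
      (((CC F X).toCycles (n + 1) n).hom (toC F X (n + 1) e))
    rw [h15, ← toC_bd, he, toC_fromC]
  rw [← hz', h14]
  exact congrArg (fun g => g.hom (toC F X (n + 1) e)) ((CC F X).toCycles_comp_homologyπ (n + 1) n)

theorem homotopic_push {X Y : Type} [TopologicalSpace X] [TopologicalSpace Y] (f g : C(X, Y))
    (h : f.Homotopic g) (n : ℕ) (z : SC F X n) (hz : z ∈ cyc F X n) :
    push F f n z - push F g n z ∈ bdy F Y n := by
  obtain ⟨H⟩ := h
  let f' : TopCat.of X ⟶ TopCat.of Y := TopCat.ofHom f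
  let g' : TopCat.of X ⟶ TopCat.of Y := TopCat.ofHom g
  let H' : TopCat.Homotopy f' g' := H
  let K := H'.singularChainComplexFunctorObjMap (ModuleCat.of F F)
  have h1 := K.comm n
  have h2 := congrArg (fun φ => φ.hom (toC F (TopCat.of X) n z)) h1
  have h3 : ((((singularChainComplexFunctor (ModuleCat.{0} F)).obj
      (ModuleCat.of F F)).map f').f n).hom (toC F (TopCat.of X) n z) =
      (dNext n K.hom).hom (toC F (TopCat.of X) n z) + (prevD n K.hom).hom (toC F (TopCat.of X) n z) +
      ((((singularChainComplexFunctor (ModuleCat.{0} F)).obj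
      (ModuleCat.of F F)).map g').f n).hom (toC F (TopCat.of X) n z) := h2
  have h4 : (dNext n K.hom).hom (toC F (TopCat.of X) n z) = 0 := by
    rcases n with _ | n
    · rw [Homotopy.dNext_zero_chainComplex]; rfl
    · rw [Homotopy.dNext_succ_chainComplex]
      have h5 : ((CC F (TopCat.of X)).d (n + 1) n).hom (toC F (TopCat.of X) (n + 1) z) = 0 := by
        rw [← toC_bd]
        have h6 : bd F X n z = 0 := hz
        have h7 : bd F (TopCat.of X) n z = 0 := h6
        rw [h7, map_zero]
      show (K.hom n (n + 1)).hom (((CC F (TopCat.of X)).d (n + 1) n).hom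
        (toC F (TopCat.of X) (n + 1) z)) = 0
      rw [h5, map_zero]
  rw [h4, zero_add, Homotopy.prevD_chainComplex, ← toC_push, ← toC_push] at h3
  have h8 : toC F (TopCat.of Y) n (push F f'.hom n z) =
      ((CC F (TopCat.of Y)).d (n + 1) n).hom ((K.hom n (n + 1)).hom (toC F (TopCat.of X) n z)) +
        toC F (TopCat.of Y) n (push F g'.hom n z) := h3
  have h9 := congrArg (fromC F (TopCat.of Y) n) h8
  rw [map_add, fromC_toC, fromC_toC, fromC_d] at h9
  refine ⟨fromC F (TopCat.of Y) (n + 1) ((K.hom n (n + 1)).hom (toC F (TopCat.of X) n z)), ?_⟩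
  have h10 : push F f n z = bd F Y n (fromC F (TopCat.of Y) (n + 1)
      ((K.hom n (n + 1)).hom (toC F (TopCat.of X) n z))) + push F g n z := h9
  rw [h10, add_sub_cancel_right]

end BR

end Pool.Agent.helper73.TC
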