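import Pool.Agent.helper73.TC.XDefs
import Pool.Agent.helper73.TC.FlCore
import Pool.Agent.helper85.TC.F1

/-!
# Soundness of the checker for sequences of bistellar flips
-/
set_option autoImplicit false
open Topology
noncomputable section
namespace Pool.Agent.helper73.TC

namespace FlS

/-- the set of bits of a mask -/
def bs (n m : ℕ) : Finset (Fin n) := Finset.univ.filter fun i => m.testBit i = true

theorem mem_bs {n m : ℕ} {i : Fin n} : i ∈ bs n m ↔ m.testBit i = true := by
  simp [bs]

theorem mem_gen {n : ℕ} {L : List ℕ} {s : Finset (Fin n)} :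
    s ∈ gen n L ↔ ∃ m ∈ L, s ⊆ bs n m := by
  constructor
  · rintro ⟨m, hm, h⟩
    exact ⟨m, hm, fun i hi => mem_bs.2 (h i hi)⟩
  · rintro ⟨m, hm, h⟩
    exact ⟨m, hm, fun i hi => mem_bs.1 (h hi)⟩

theorem land_eq_left {A m : ℕ} : Nat.land A m = A ↔ ∀ i, A.testBit i = true → m.testBit i = true := by
  constructor
  · intro h i hi
    have : (A &&& m).testBit i = true := by
      show (Nat.land A m).testBit i = true
      rw [h]; exact hi
    rw [Nat.testBit_and] at this
    simp at this
    exact this.2
  · intro h
    apply Nat.eq_of_testBit_eq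
    intro i
    show (A &&& m).testBit i = A.testBit i
    rw [Nat.testBit_and]
    cases hA : A.testBit i
    · simp
    · simp [h i hA]

theorem land_eq_left_iff {n A m : ℕ} (hA : A < 2 ^ n) :
    Nat.land A m = A ↔ bs n A ⊆ bs n m := by
  rw [land_eq_left]
  constructor
  · intro h i hi
    exact mem_bs.2 (h i (mem_bs.1 hi))
  · intro h i hi
    have hi' : i < n := by
      by_contra hc
      push Not at hc
      have := Nat.testBit_lt_two_pow (lt_of_lt_of_le hA (Nat.pow_le_pow_right (by norm_num) hc))
      rw [this] at hi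
      exact absurd hi (by simp)
    exact mem_bs.1 (h ((mem_bs (i := (⟨i, hi'⟩ : Fin n))).2 hi))

theorem land_eq_right {m U : ℕ} (h : Nat.land m U = m) (n : ℕ) : bs n m ⊆ bs n U := by
  intro i hi
  have := (land_eq_left.1 h) i (mem_bs.1 hi)
  exact mem_bs.2 this

theorem scan_sound (A B U : ℕ) (L : List ℕ) : ∀ (st rs : List ℕ) (k : List ℕ → List ℕ → Bool),
    Fl.scan A B U L st rs k = true →
    ∃ st' rs', k st' rs' = true ∧
      (∀ m, m ∈ st' ↔ m ∈ st ∨ (m ∈ L ∧ Nat.land A m = A)) ∧
      (∀ m, m ∈ rs' ↔ m ∈ rs ∨ (m ∈ L ∧ Nat.land A m ≠ A)) ∧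
      (∀ m ∈ L, Nat.land A m = A → Nat.land m U = m) ∧
      (∀ m ∈ L, Nat.land A m ≠ A → Nat.land B m ≠ B) := by
  induction L with
  | nil =>
    intro st rs k h
    exact ⟨st, rs, h, by simp, by simp, by simp, by simp⟩
  | cons m L ih =>
    intro st rs k h
    have h' : @Bool.rec (fun _ => Bool)
        (@Bool.rec (fun _ => Bool) (Fl.scan A B U L st (m :: rs) k) false (Nat.beq (Nat.land B m) B))
        (@Bool.rec (fun _ => Bool) false (Fl.scan A B U L (m :: st) rs k) (Nat.beq (Nat.land m U) m))
        (Nat.beq (Nat.land A m) A) = true := h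
    clear h
    cases hc : Nat.beq (Nat.land A m) A with
    | false =>
      rw [hc] at h'
      have hne : Nat.land A m ≠ A := by
        intro he
        rw [he] at hc
        simp at hc
      cases hd : Nat.beq (Nat.land B m) B with
      | true => rw [hd] at h'; exact absurd h' (by simp)
      | false =>
        rw [hd] at h'
        have hne2 : Nat.land B m ≠ B := by
          intro he
          rw [he] at hd
          simp at hd
        obtain ⟨st', rs', hk, h1, h2, h3, h4⟩ := ih st (m :: rs) k h'
        refine ⟨st', rs', hk, ?_, ?_, ?_, ?_⟩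
        · intro x
          rw [h1]
          constructor
          · rintro (hx | ⟨hx, hx2⟩)
            · exact Or.inl hx
            · exact Or.inr ⟨List.mem_cons_of_mem _ hx, hx2⟩
          · rintro (hx | ⟨hx, hx2⟩)
            · exact Or.inl hx
            · rcases List.mem_cons.1 hx with rfl | hx
              · exact absurd hx2 hne
              · exact Or.inr ⟨hx, hx2⟩
        · intro x
          rw [h2]
          constructor
          · rintro (hx | ⟨hx, hx2⟩)
            · rcases List.mem_cons.1 hx with rfl | hx
              · exact Or.inr ⟨List.mem_cons_self, hne⟩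
              · exact Or.inl hx
            · exact Or.inr ⟨List.mem_cons_of_mem _ hx, hx2⟩
          · rintro (hx | ⟨hx, hx2⟩)
            · exact Or.inl (List.mem_cons_of_mem _ hx)
            · rcases List.mem_cons.1 hx with rfl | hx
              · exact Or.inl List.mem_cons_self
              · exact Or.inr ⟨hx, hx2⟩
        · intro x hx hx2
          rcases List.mem_cons.1 hx with rfl | hx
          · exact absurd hx2 hne
          · exact h3 x hx hx2
        · intro x hx hx2
          rcases List.mem_cons.1 hx with rfl | hx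
          · exact hne2
          · exact h4 x hx hx2
    | true =>
      rw [hc] at h'
      have he : Nat.land A m = A := Nat.eq_of_beq_eq_true hc
      cases hd : Nat.beq (Nat.land m U) m with
      | false => rw [hd] at h'; exact absurd h' (by simp)
      | true =>
        rw [hd] at h'
        have he2 : Nat.land m U = m := Nat.eq_of_beq_eq_true hd
        obtain ⟨st', rs', hk, h1, h2, h3, h4⟩ := ih (m :: st) rs k h'
        refine ⟨st', rs', hk, ?_, ?_, ?_, ?_⟩
        · intro x
          rw [h1]
          constructor
          · rintro (hx | ⟨hx, hx2⟩)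
            · rcases List.mem_cons.1 hx with rfl | hx
              · exact Or.inr ⟨List.mem_cons_self, he⟩
              · exact Or.inl hx
            · exact Or.inr ⟨List.mem_cons_of_mem _ hx, hx2⟩
          · rintro (hx | ⟨hx, hx2⟩)
            · exact Or.inl (List.mem_cons_of_mem _ hx)
            · rcases List.mem_cons.1 hx with rfl | hx
              · exact Or.inl List.mem_cons_self
              · exact Or.inr ⟨hx, hx2⟩
        · intro x
          rw [h2]
          constructor
          · rintro (hx | ⟨hx, hx2⟩)
            · exact Or.inl hx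
            · exact Or.inr ⟨List.mem_cons_of_mem _ hx, hx2⟩
          · rintro (hx | ⟨hx, hx2⟩)
            · exact Or.inl hx
            · rcases List.mem_cons.1 hx with rfl | hx
              · exact absurd he hx2
              · exact Or.inr ⟨hx, hx2⟩
        · intro x hx hx2
          rcases List.mem_cons.1 hx with rfl | hx
          · exact he2
          · exact h3 x hx hx2
        · intro x hx hx2
          rcases List.mem_cons.1 hx with rfl | hx
          · exact absurd he hx2
          · exact h4 x hx hx2

theorem allL_iff (f : ℕ → Bool) (L : List ℕ) (h : Fl.allL f L = true) : ∀ m ∈ L, f m = true := by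
  induction L with
  | nil => simp
  | cons m L ih =>
    have h' : @Bool.rec (fun _ => Bool) false (Fl.allL f L) (f m) = true := h
    cases hf : f m with
    | false => rw [hf] at h'; exact absurd h' (by simp)
    | true =>
      rw [hf] at h'
      intro x hx
      rcases List.mem_cons.1 hx with rfl | hx
      · exact hf
      · exact ih h' x hx

theorem anyL_iff (f : ℕ → Bool) (L : List ℕ) (h : Fl.anyL f L = true) : ∃ m ∈ L, f m = true := by
  induction L with
  | nil => exact absurd h (by simp [Fl.anyL])
  | cons m L ih =>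
    have h' : @Bool.rec (fun _ => Bool) (Fl.anyL f L) true (f m) = true := h
    cases hf : f m with
    | true => exact ⟨m, List.mem_cons_self, hf⟩
    | false =>
      rw [hf] at h'
      obtain ⟨x, hx, hx2⟩ := ih h'
      exact ⟨x, List.mem_cons_of_mem _ hx, hx2⟩

theorem allBits_iff (A : ℕ) (f : ℕ → Bool) (n : ℕ) (h : Fl.allBits A f n = true) :
    ∀ c < n, A.testBit c = true → f c = true := by
  induction n with
  | zero => intro c hc; omega
  | succ n ih =>
    have h' : @Bool.rec (fun _ => Bool) (Fl.allBits A f n)
      (@Bool.rec (fun _ => Bool) false (Fl.allBits A f n) (f n)) (Nat.testBit A n) = true := h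
    intro c hc hA
    cases ht : A.testBit n with
    | false =>
      rw [ht] at h'
      have : c ≠ n := by
        rintro rfl
        rw [hA] at ht
        exact absurd ht (by simp)
      exact ih h' c (by omega) hA
    | true =>
      rw [ht] at h'
      cases hf : f n with
      | false => 
        change @Bool.rec (fun _ => Bool) false (Fl.allBits A f n) (f n) = true at h'
        rw [hf] at h'; exact absurd h' (by simp)
      | true =>
        change @Bool.rec (fun _ => Bool) false (Fl.allBits A f n) (f n) = true at h'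
        rw [hf] at h'
        by_cases hcn : c = n
        · rw [hcn]; exact hf
        · exact ih h' c (by omega) hA

theorem addBits_sound (A U : ℕ) (n : ℕ) : ∀ (l : List ℕ) (k : List ℕ → Bool),
    Fl.addBits A U n l k = true →
    ∃ l', k l' = true ∧ ∀ m, m ∈ l' ↔ m ∈ l ∨ ∃ c < n, A.testBit c = true ∧ m = Nat.xor U (2 ^ c) := by
  induction n with
  | zero =>
    intro l k h
    exact ⟨l, h, by simp⟩
  | succ n ih =>
    intro l k h
    have h' : @Bool.rec (fun _ => Bool) (Fl.addBits A U n l k)
      (Fl.addBits A U n (Nat.xor U (Nat.pow 2 n) :: l) k) (Nat.testBit A n) = true := h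
    cases ht : A.testBit n with
    | false =>
      rw [ht] at h'
      obtain ⟨l', hk, hl⟩ := ih l k h'
      refine ⟨l', hk, fun m => ?_⟩
      rw [hl]
      constructor
      · rintro (hm | ⟨c, hc, h1, h2⟩)
        · exact Or.inl hm
        · exact Or.inr ⟨c, by omega, h1, h2⟩
      · rintro (hm | ⟨c, hc, h1, h2⟩)
        · exact Or.inl hm
        · have : c ≠ n := by
            rintro rfl
            rw [h1] at ht
            exact absurd ht (by simp)
          exact Or.inr ⟨c, by omega, h1, h2⟩
    | true =>
      rw [ht] at h'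
      obtain ⟨l', hk, hl⟩ := ih _ k h'
      refine ⟨l', hk, fun m => ?_⟩
      rw [hl]
      constructor
      · rintro (hm | ⟨c, hc, h1, h2⟩)
        · rcases List.mem_cons.1 hm with hm | hm
          · exact Or.inr ⟨n, by omega, ht, hm⟩
          · exact Or.inl hm
        · exact Or.inr ⟨c, by omega, h1, h2⟩
      · rintro (hm | ⟨c, hc, h1, h2⟩)
        · exact Or.inl (List.mem_cons_of_mem _ hm)
        · by_cases hcn : c = n
          · subst hcn
            exact Or.inl (List.mem_cons.2 (Or.inl h2))
          · exact Or.inr ⟨c, by omega, h1, h2⟩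

theorem testBit_xor_pow {U c i : ℕ} (hc : U.testBit c = true) :
    (Nat.xor U (2 ^ c)).testBit i = true ↔ U.testBit i = true ∧ i ≠ c := by
  have h : (Nat.xor U (2 ^ c)).testBit i = (U.testBit i ^^ (2 ^ c).testBit i) := Nat.testBit_xor U (2 ^ c) i
  rw [h, Nat.testBit_two_pow]
  by_cases hic : c = i
  · subst hic
    simp [hc]
  · have : i ≠ c := fun h => hic h.symm
    simp [hic, this]

theorem bs_lor (n A B : ℕ) : bs n (Nat.lor A B) = bs n A ∪ bs n B := by
  ext i
  rw [Finset.mem_union, mem_bs, mem_bs, mem_bs]
  have : (Nat.lor A B).testBit i = (A.testBit i || B.testBit i) := Nat.testBit_or A B i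
  rw [this]
  simp

theorem step_sound (n A B : ℕ) (L : List ℕ) (k : List ℕ → Bool) (h : Fl.step n A B L k = true) :
    ∃ L', k L' = true ∧ Nonempty (Real (gen n L) ≃ₜ Real (gen n L')) := by
  unfold Fl.step at h
  obtain ⟨st, rs, hk, hst, hrs, hU, hB⟩ := scan_sound A B _ L [] [] _ h
  clear h
  simp only [List.not_mem_nil, false_or] at hst hrs
  revert hk
  cases hcond : (Bool.and (Bool.and (Nat.beq (Nat.land A B) 0) (Bool.and (Nat.ble 1 A) (Bool.and (Nat.ble 1 B) (Nat.blt (Nat.lor A B) (Nat.pow 2 n)))))
        (Bool.and (Fl.allL (fun m => Bool.not (Nat.beq (Nat.land B m) B)) st)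
          (Fl.allBits B (fun c => Fl.anyL (fun m => Nat.beq (Nat.land (Nat.xor (Nat.lor A B) (Nat.pow 2 c)) m)
            (Nat.xor (Nat.lor A B) (Nat.pow 2 c))) st) n))) with
  | false => intro hk; exact absurd hk (by simp)
  | true =>
  intro hk
  obtain ⟨L', hL', hmem⟩ := addBits_sound A (Nat.lor A B) n rs k hk
  refine ⟨L', hL', ?_⟩
  have hc := hcond
  simp only [Bool.and_eq_true] at hc
  obtain ⟨⟨c1, c2, c3, c4⟩, c5, c6⟩ := hc
  have d1 : Nat.land A B = 0 := Nat.eq_of_beq_eq_true c1
  have d2 : 1 ≤ A := Nat.le_of_ble_eq_true c2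
  have d3 : 1 ≤ B := Nat.le_of_ble_eq_true c3
  have d4 : Nat.lor A B < 2 ^ n := by
    have : Nat.lor A B + 1 ≤ 2 ^ n := Nat.le_of_ble_eq_true c4
    omega
  have d5 : ∀ m ∈ st, Nat.land B m ≠ B := by
    intro m hm he
    have := allL_iff _ _ c5 m hm
    rw [he] at this
    simp at this
  have hAU : A < 2 ^ n := lt_of_le_of_lt (Nat.left_le_or (n := A) (m := B)) d4
  have hBU : B < 2 ^ n := lt_of_le_of_lt (Nat.right_le_or (n := A) (m := B)) d4
  have ne_of : ∀ {m : ℕ}, 1 ≤ m → m < 2 ^ n → (bs n m).Nonempty := by
    intro m hm hmn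
    obtain ⟨i, hi⟩ := Nat.exists_testBit_of_ne_zero (show m ≠ 0 by omega)
    have hi' : i < n := by
      by_contra hc
      push Not at hc
      have := Nat.testBit_lt_two_pow (lt_of_lt_of_le hmn (Nat.pow_le_pow_right (by norm_num) hc))
      rw [this] at hi
      exact absurd hi (by simp)
    exact ⟨⟨i, hi'⟩, mem_bs.2 hi⟩
  refine flip_homeo (gen n L) ?_ (bs n A) (bs n B) ?_ (ne_of d2 hAU) (ne_of d3 hBU) ?_ ?_ ?_ (gen n L') ?_
  · -- down closed
    intro s hs t ht
    rw [mem_gen] at hs ⊢
    obtain ⟨m, hm, h⟩ := hs
    exact ⟨m, hm, ht.trans h⟩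
  · rw [Finset.disjoint_left]
    intro i hi hj
    have h0 : (Nat.land A B).testBit i = (A.testBit i && B.testBit i) := Nat.testBit_and A B i
    rw [d1, mem_bs.1 hi, mem_bs.1 hj] at h0
    simp at h0
  · intro s hs hAs
    rw [mem_gen] at hs
    obtain ⟨m, hm, h⟩ := hs
    have h1 : Nat.land A m = A := (land_eq_left_iff hAU).2 (hAs.trans h)
    have h2 := hU m hm h1
    have h3 := h.trans (land_eq_right h2 n)
    rwa [bs_lor] at h3
  · intro b hb
    have hbb := mem_bs.1 hb
    have h1 := allBits_iff _ _ _ c6 b b.2 hbb
    obtain ⟨m, hm, h2⟩ := anyL_iff _ _ h1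
    have h3 : Nat.land (Nat.xor (Nat.lor A B) (2 ^ (b : ℕ))) m = Nat.xor (Nat.lor A B) (2 ^ (b : ℕ)) :=
      Nat.eq_of_beq_eq_true h2
    have hUb : (Nat.lor A B).testBit b = true := by
      have : (Nat.lor A B).testBit b = (A.testBit b || B.testBit b) := Nat.testBit_or A B b
      rw [this, hbb]; simp
    have hbA : A.testBit b = false := by
      have h0 : (Nat.land A B).testBit b = (A.testBit b && B.testBit b) := Nat.testBit_and A B b
      rw [d1, hbb] at h0
      simpa using h0.symm
    rw [mem_gen]
    refine ⟨m, ((hst m).1 hm).1, ?_⟩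
    intro i hi
    rw [mem_bs]
    apply (land_eq_left.1 h3)
    rw [testBit_xor_pow hUb]
    rcases Finset.mem_union.1 hi with hi | hi
    · refine ⟨?_, ?_⟩
      · have : (Nat.lor A B).testBit i = (A.testBit i || B.testBit i) := Nat.testBit_or A B i
        rw [this, mem_bs.1 hi]; simp
      · intro hib
        have := mem_bs.1 hi
        rw [hib, hbA] at this
        exact absurd this (by simp)
    · rw [Finset.mem_erase] at hi
      refine ⟨?_, ?_⟩
      · have : (Nat.lor A B).testBit i = (A.testBit i || B.testBit i) := Nat.testBit_or A B i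
        rw [this, mem_bs.1 hi.2]; simp
      · intro hib
        exact hi.1 (Fin.ext hib)
  · intro hBX
    rw [mem_gen] at hBX
    obtain ⟨m, hm, h⟩ := hBX
    have h1 : Nat.land B m = B := (land_eq_left_iff hBU).2 h
    by_cases hA : Nat.land A m = A
    · exact d5 m ((hst m).2 ⟨hm, hA⟩) h1
    · exact hB m hm hA h1
  · intro s
    rw [mem_gen, mem_gen]
    constructor
    · rintro ⟨m, hm, hs⟩
      rcases (hmem m).1 hm with hm | ⟨c, hc, hAc, rfl⟩
      · obtain ⟨h1, h2⟩ := (hrs m).1 hm
        refine ⟨fun hAs => h2 ((land_eq_left_iff hAU).2 (hAs.trans hs)), Or.inl ⟨m, h1, hs⟩⟩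
      · have hUc : (Nat.lor A B).testBit c = true := by
          have : (Nat.lor A B).testBit c = (A.testBit c || B.testBit c) := Nat.testBit_or A B c
          rw [this, hAc]; simp
        refine ⟨?_, Or.inr ?_⟩
        · intro hAs
          have := hs (hAs ((mem_bs (i := (⟨c, hc⟩ : Fin n))).2 hAc))
          rw [mem_bs, testBit_xor_pow hUc] at this
          exact this.2 rfl
        · intro i hi
          have := hs hi
          rw [mem_bs, testBit_xor_pow hUc] at this
          rw [← bs_lor]
          exact mem_bs.2 this.1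
    · rintro ⟨hAs, hs⟩
      rw [Finset.not_subset] at hAs
      obtain ⟨c, hcA, hcs⟩ := hAs
      have hAc := mem_bs.1 hcA
      have hUc : (Nat.lor A B).testBit c = true := by
        have : (Nat.lor A B).testBit c = (A.testBit c || B.testBit c) := Nat.testBit_or A B c
        rw [this, hAc]; simp
      have key : s ⊆ bs n A ∪ bs n B → ∃ m ∈ L', s ⊆ bs n m := by
        intro hsU
        refine ⟨Nat.xor (Nat.lor A B) (2 ^ (c : ℕ)), (hmem _).2 (Or.inr ⟨c, c.2, hAc, rfl⟩), ?_⟩
        intro i hi
        rw [mem_bs, testBit_xor_pow hUc]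
        have h1 := hsU hi
        rw [← bs_lor] at h1
        refine ⟨mem_bs.1 h1, ?_⟩
        intro hic
        exact hcs ((Fin.ext hic : i = c) ▸ hi)
      rcases hs with ⟨m, hm, hs⟩ | hs
      · by_cases hA : Nat.land A m = A
        · apply key
          rw [← bs_lor]
          exact hs.trans (land_eq_right (hU m hm hA) n)
        · exact ⟨m, (hmem m).2 (Or.inl ((hrs m).2 ⟨hm, hA⟩)), hs⟩
      · exact key hs

end FlS

theorem run_sound (n : ℕ) (ms : List (ℕ × ℕ)) (L : List ℕ) (k : List ℕ → Bool)
    (h : Fl.run n ms L k = true) :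
    ∃ L', k L' = true ∧ Nonempty (Real (gen n L) ≃ₜ Real (gen n L')) := by
  induction ms generalizing L with
  | nil => exact ⟨L, h, ⟨Homeomorph.refl _⟩⟩
  | cons m ms ih =>
    have h' : Fl.step n m.1 m.2 L (fun L' => Fl.run n ms L' k) = true := h
    obtain ⟨L1, h1, ⟨e1⟩⟩ := FlS.step_sound n m.1 m.2 L _ h'
    obtain ⟨L2, h2, ⟨e2⟩⟩ := ih L1 h1
    exact ⟨L2, h2, ⟨e1.trans e2⟩⟩

theorem eqL_iff (a b : List ℕ) : Fl.eqL a b = true ↔ a = b := by
  induction a generalizing b with
  | nil =>
    cases b with
    | nil => exact ⟨fun _ => rfl, fun _ => rfl⟩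
    | cons y t =>
      constructor
      · intro h
        exact absurd (show false = true from h) (by simp)
      · intro h
        exact absurd h (by simp)
  | cons x a ih =>
    cases b with
    | nil =>
      constructor
      · intro h
        exact absurd (show false = true from h) (by simp)
      · intro h
        exact absurd h (by simp)
    | cons y t =>
      have hdef : Fl.eqL (x :: a) (y :: t) = @Bool.rec (fun _ => Bool) false (Fl.eqL a t) (Nat.beq x y) := rfl
      rw [hdef]
      cases hxy : Nat.beq x y with
      | false =>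
        constructor
        · intro h
          exact absurd (show false = true from h) (by simp)
        · intro h
          rw [List.cons.injEq] at h
          rw [h.1] at hxy
          simp at hxy
      | true =>
        have e : x = y := Nat.eq_of_beq_eq_true hxy
        show Fl.eqL a t = true ↔ _
        rw [ih, e]
        simp

end Pool.Agent.helper73.TC
end
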