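import Pool.Agent.helper62.TC.F2
import Pool.Agent.helper73.TC.XData
import Pool.Agent.helper86.TC.R
import Pool.Agent.helper73.TC.Data.FlChk00
import Pool.Agent.helper73.TC.Data.FlChk01
import Pool.Agent.helper73.TC.Data.FlChk02
import Pool.Agent.helper73.TC.Data.FlChk03
import Pool.Agent.helper73.TC.Data.FlChk04
import Pool.Agent.helper73.TC.Data.FlChk05
import Pool.Agent.helper73.TC.Data.FlChk06
import Pool.Agent.helper73.TC.Data.FlChk07
import Pool.Agent.helper73.TC.Data.FlChk08
import Pool.Agent.helper73.TC.Data.FlChk09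
import Pool.Agent.helper73.TC.Data.FlChk10
import Pool.Agent.helper73.TC.Data.FlChk11
import Pool.Agent.helper73.TC.Data.FlChk12
import Pool.Agent.helper73.TC.Data.FlChk13
import Pool.Agent.helper73.TC.Data.FlChk14
import Pool.Agent.helper73.TC.Data.FlChk15
import Pool.Agent.helper73.TC.Data.FlChk16
import Pool.Agent.helper73.TC.Data.FlChk17
import Pool.Agent.helper73.TC.Data.FlChk18
import Pool.Agent.helper73.TC.Data.FlChk19
import Pool.Agent.helper73.TC.Data.FlChk20
import Pool.Agent.helper73.TC.Data.FlChk21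
import Pool.Agent.helper73.TC.Data.FlChk22
import Pool.Agent.helper73.TC.Data.FlChk23
import Pool.Agent.helper73.TC.Data.FlChk24
import Pool.Agent.helper73.TC.Data.KDat

/-!
# The flip path from the quotient triangulation to the complex on 20 vertices
-/
set_option autoImplicit false
set_option maxRecDepth 100000
open Topology
noncomputable section
namespace Pool.Agent.helper73.TC

theorem L1_eq : L1 = Fl.lst0 := by decide +kernel

namespace FlS

theorem run_step (n : ℕ) (ms : List (ℕ × ℕ)) (a b : List ℕ)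
    (h : Fl.run n ms a (fun L => Fl.eqL L b) = true) : Nonempty (Real (gen n a) ≃ₜ Real (gen n b)) := by
  obtain ⟨L', h1, h2⟩ := run_sound n ms a _ h
  have h3 : L' = b := (eqL_iff L' b).1 h1
  rwa [h3] at h2

theorem tr {X Y Z : Type} [TopologicalSpace X] [TopologicalSpace Y] [TopologicalSpace Z]
    (h1 : Nonempty (X ≃ₜ Y)) (h2 : Nonempty (Y ≃ₜ Z)) : Nonempty (X ≃ₜ Z) := by
  obtain ⟨e⟩ := h1
  obtain ⟨f⟩ := h2
  exact ⟨e.trans f⟩

theorem testBit_add_two_pow {b x : ℕ} (hb : b.testBit x = false) (j : ℕ) :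
    (2 ^ x + b).testBit j = true ↔ j = x ∨ b.testBit j = true := by
  rcases lt_trichotomy j x with h | h | h
  · rw [Nat.testBit_two_pow_add_gt h]
    constructor
    · exact fun h => Or.inr h
    · rintro (h1 | h1)
      · omega
      · exact h1
  · subst h
    rw [Nat.testBit_two_pow_add_eq, hb]
    simp
  · have hmod : b % 2 ^ (x + 1) < 2 ^ x := by
      have h1 : b % 2 ^ (x + 1) < 2 ^ (x + 1) := Nat.mod_lt _ (by positivity)
      by_contra hc
      push Not at hc
      have h2 : (b % 2 ^ (x + 1)).testBit x = true := by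
        rw [Nat.testBit_eq_decide_div_mod_eq]
        have h3 : b % 2 ^ (x + 1) / 2 ^ x = 1 := by
          rw [Nat.div_eq_iff (by positivity)]
          rw [pow_succ] at h1
          omega
        rw [h3]
        simp
      rw [Nat.testBit_mod_two_pow] at h2
      simp [hb] at h2
    have hdiv : (2 ^ x + b) / 2 ^ (x + 1) = b / 2 ^ (x + 1) := by
      have h1 := Nat.div_add_mod b (2 ^ (x + 1))
      have h2 : 2 ^ x + b = (2 ^ x + b % 2 ^ (x + 1)) + 2 ^ (x + 1) * (b / 2 ^ (x + 1)) := by omega
      rw [h2, Nat.add_mul_div_left _ _ (by positivity), Nat.div_eq_of_lt]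
      · omega
      · have : 2 ^ (x + 1) = 2 ^ x + 2 ^ x := by ring
        omega
    have e1 : (2 ^ x + b).testBit j = ((2 ^ x + b) / 2 ^ (x + 1)).testBit (j - (x + 1)) := by
      rw [Nat.testBit_div_two_pow]
      congr 1
      omega
    have e2 : b.testBit j = (b / 2 ^ (x + 1)).testBit (j - (x + 1)) := by
      rw [Nat.testBit_div_two_pow]
      congr 1
      omega
    rw [e1, hdiv, ← e2]
    constructor
    · exact fun h => Or.inr h
    · rintro (h1 | h1)
      · omega
      · exact h1

theorem mapMask_cons (x : ℕ) (l : List ℕ) (m i : ℕ) :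
    Fl.mapMask (x :: l) m i = (if m.testBit i = true then 2 ^ x else 0) + Fl.mapMask l m (i + 1) := by
  have : Fl.mapMask (x :: l) m i =
    Nat.add (@Bool.rec (fun _ => Nat) 0 (Nat.pow 2 x) (Nat.testBit m i)) (Fl.mapMask l m (i + 1)) := rfl
  rw [this]
  cases h : m.testBit i with
  | false => simp
  | true => simp

theorem mapMask_testBit (l : List ℕ) (hl : l.Nodup) (m : ℕ) : ∀ (i j : ℕ),
    (Fl.mapMask l m i).testBit j = true ↔ ∃ k, ∃ h : k < l.length, l[k] = j ∧ m.testBit (i + k) = true := by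
  induction l with
  | nil =>
    intro i j
    have : Fl.mapMask [] m i = 0 := rfl
    rw [this]
    simp
  | cons x l ih =>
    rw [List.nodup_cons] at hl
    intro i j
    rw [mapMask_cons]
    have ih' := ih hl.2 (i + 1)
    have hx : (Fl.mapMask l m (i + 1)).testBit x = false := by
      rw [Bool.eq_false_iff]
      intro h
      obtain ⟨k, hk, h1, _⟩ := (ih' x).1 h
      exact hl.1 (h1 ▸ List.getElem_mem hk)
    have rhs : (∃ k, ∃ h : k < (x :: l).length, (x :: l)[k] = j ∧ m.testBit (i + k) = true) ↔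
        (x = j ∧ m.testBit i = true) ∨ (∃ k, ∃ h : k < l.length, l[k] = j ∧ m.testBit (i + 1 + k) = true) := by
      constructor
      · rintro ⟨k, hk, h1, h2⟩
        cases k with
        | zero => exact Or.inl ⟨h1, h2⟩
        | succ k =>
          refine Or.inr ⟨k, by simpa using hk, by simpa using h1, ?_⟩
          rw [show i + 1 + k = i + (k + 1) by omega]
          exact h2
      · rintro (⟨h1, h2⟩ | ⟨k, hk, h1, h2⟩)
        · exact ⟨0, by simp, h1, h2⟩
        · refine ⟨k + 1, by simpa using hk, by simpa using h1, ?_⟩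
          rw [show i + (k + 1) = i + 1 + k by omega]
          exact h2
    rw [rhs, ← ih']
    by_cases hm : m.testBit i = true
    · rw [if_pos hm, testBit_add_two_pow hx]
      constructor
      · rintro (h | h)
        · exact Or.inl ⟨h.symm, hm⟩
        · exact Or.inr h
      · rintro (h | h)
        · exact Or.inl h.1.symm
        · exact Or.inr h
    · rw [if_neg hm, Nat.zero_add]
      constructor
      · exact fun h => Or.inr h
      · rintro (h | h)
        · exact absurd h.2 hm
        · exact h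

/-- the embedding of the vertex sets -/
def lam (i : Fin 20) : Fin 30 := Fin.ofNat 30 (Fl.lamL.getD i 0)

theorem lam_inj : Function.Injective lam := by decide +kernel

theorem lamL_nodup : Fl.lamL.Nodup := by decide +kernel

theorem lamL_length : Fl.lamL.length = 20 := rfl

theorem lam_val (i : Fin 20) : ((lam i : Fin 30) : ℕ) = Fl.lamL[(i : ℕ)]'(by rw [lamL_length]; exact i.2) := by
  revert i
  decide +kernel

theorem relab (t : Finset (Fin 30)) : t ∈ gen 30 Fl.lst25 ↔ ∃ s ∈ gen 20 Fl.K20, t = s.image lam := by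
  have hl : Fl.K20.map (fun m => Fl.mapMask Fl.lamL m 0) = Fl.lst25 := (eqL_iff _ _).1 Fl.lam_ok
  rw [← hl]
  constructor
  · rintro ⟨m', hm', h⟩
    rw [List.mem_map] at hm'
    obtain ⟨m, hm, rfl⟩ := hm'
    have key : ∀ j ∈ t, ∃ i : Fin 20, lam i = j ∧ m.testBit i = true := by
      intro j hj
      obtain ⟨k, hk, h1, h2⟩ := (mapMask_testBit _ lamL_nodup m 0 j).1 (h j hj)
      have hk' : k < 20 := by rw [lamL_length] at hk; exact hk
      refine ⟨⟨k, hk'⟩, ?_, by simpa using h2⟩
      apply Fin.ext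
      rw [lam_val]
      exact h1
    refine ⟨Finset.univ.filter (fun i => lam i ∈ t), ⟨m, hm, ?_⟩, ?_⟩
    · intro i hi
      obtain ⟨i', h1, h2⟩ := key _ (Finset.mem_filter.1 hi).2
      rw [← lam_inj h1]
      exact h2
    · ext j
      rw [Finset.mem_image]
      constructor
      · intro hj
        obtain ⟨i, h1, h2⟩ := key j hj
        exact ⟨i, Finset.mem_filter.2 ⟨Finset.mem_univ _, h1.symm ▸ hj⟩, h1⟩
      · rintro ⟨i, hi, rfl⟩
        exact (Finset.mem_filter.1 hi).2
  · rintro ⟨s, ⟨m, hm, h⟩, rfl⟩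
    refine ⟨Fl.mapMask Fl.lamL m 0, List.mem_map.2 ⟨m, hm, rfl⟩, ?_⟩
    intro j hj
    obtain ⟨i, hi, rfl⟩ := Finset.mem_image.1 hj
    rw [mapMask_testBit _ lamL_nodup]
    refine ⟨i, by rw [lamL_length]; exact i.2, (lam_val i).symm, ?_⟩
    rw [Nat.zero_add]
    exact h i hi

end FlS

open Fl in
theorem K_homeo : Nonempty (Real (gen 30 L1) ≃ₜ Real (gen 20 Fl.K20)) := by
  rw [L1_eq]
  have hR : Nonempty (Real (gen 20 K20) ≃ₜ Real (gen 30 lst25)) :=
    relabel_homeo FlS.lam FlS.lam_inj _ _ FlS.relab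
  have hR' : Nonempty (Real (gen 30 lst25) ≃ₜ Real (gen 20 K20)) := by
    obtain ⟨e⟩ := hR
    exact ⟨e.symm⟩
  have h0 := FlS.run_step 30 mvs0 lst0 lst1 run0
  have h1 := FlS.run_step 30 mvs1 lst1 lst2 run1
  have h2 := FlS.run_step 30 mvs2 lst2 lst3 run2
  have h3 := FlS.run_step 30 mvs3 lst3 lst4 run3
  have h4 := FlS.run_step 30 mvs4 lst4 lst5 run4
  have h5 := FlS.run_step 30 mvs5 lst5 lst6 run5
  have h6 := FlS.run_step 30 mvs6 lst6 lst7 run6
  have h7 := FlS.run_step 30 mvs7 lst7 lst8 run7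
  have h8 := FlS.run_step 30 mvs8 lst8 lst9 run8
  have h9 := FlS.run_step 30 mvs9 lst9 lst10 run9
  have h10 := FlS.run_step 30 mvs10 lst10 lst11 run10
  have h11 := FlS.run_step 30 mvs11 lst11 lst12 run11
  have h12 := FlS.run_step 30 mvs12 lst12 lst13 run12
  have h13 := FlS.run_step 30 mvs13 lst13 lst14 run13
  have h14 := FlS.run_step 30 mvs14 lst14 lst15 run14
  have h15 := FlS.run_step 30 mvs15 lst15 lst16 run15
  have h16 := FlS.run_step 30 mvs16 lst16 lst17 run16
  have h17 := FlS.run_step 30 mvs17 lst17 lst18 run17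
  have h18 := FlS.run_step 30 mvs18 lst18 lst19 run18
  have h19 := FlS.run_step 30 mvs19 lst19 lst20 run19
  have h20 := FlS.run_step 30 mvs20 lst20 lst21 run20
  have h21 := FlS.run_step 30 mvs21 lst21 lst22 run21
  have h22 := FlS.run_step 30 mvs22 lst22 lst23 run22
  have h23 := FlS.run_step 30 mvs23 lst23 lst24 run23
  have h24 := FlS.run_step 30 mvs24 lst24 lst25 run24
  have g24 := FlS.tr h24 hR'
  have g23 := FlS.tr h23 g24
  have g22 := FlS.tr h22 g23
  have g21 := FlS.tr h21 g22
  have g20 := FlS.tr h20 g21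
  have g19 := FlS.tr h19 g20
  have g18 := FlS.tr h18 g19
  have g17 := FlS.tr h17 g18
  have g16 := FlS.tr h16 g17
  have g15 := FlS.tr h15 g16
  have g14 := FlS.tr h14 g15
  have g13 := FlS.tr h13 g14
  have g12 := FlS.tr h12 g13
  have g11 := FlS.tr h11 g12
  have g10 := FlS.tr h10 g11
  have g9 := FlS.tr h9 g10
  have g8 := FlS.tr h8 g9
  have g7 := FlS.tr h7 g8
  have g6 := FlS.tr h6 g7
  have g5 := FlS.tr h5 g6
  have g4 := FlS.tr h4 g5
  have g3 := FlS.tr h3 g4
  have g2 := FlS.tr h2 g3
  have g1 := FlS.tr h1 g2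
  have g0 := FlS.tr h0 g1
  exact g0

end Pool.Agent.helper73.TC
end
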